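import Pool.Agent.Helper10.AB.GoalsEMB

/-!
# Project AB (MP_1ef41b_an), module EMB, packet ACT2: the neighbourhoods `Unb η`
-/

open Set Filter Topology
open scoped ContDiff

noncomputable section

namespace Pool.Agent.Helper11.AB

open Pool.Agent.Helper24.AB Pool.Agent.Helper10.AB

theorem s5_sq : Real.sqrt 5 ^ 2 = 5 := Real.sq_sqrt (by norm_num)

theorem s5_pos : 0 < Real.sqrt 5 := Real.sqrt_pos.2 (by norm_num)

theorem s5_lt : Real.sqrt 5 < 2.4 := by
  rw [Real.sqrt_lt' (by norm_num)]
  norm_num

theorem s5_gt : 2 < Real.sqrt 5 := by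
  rw [Real.lt_sqrt (by norm_num)]
  norm_num

theorem lam_pos : 0 < lam := by
  unfold lam
  linarith [s5_pos]

theorem exp_two_pi_kap : Real.exp (kap * (2 * Real.pi)) = lam := by
  unfold kap
  rw [div_mul_cancel₀ _ (by positivity), Real.exp_log lam_pos]

theorem kap_nonneg : 0 ≤ kap := by
  unfold kap
  apply div_nonneg (Real.log_nonneg _) (by positivity)
  unfold lam
  linarith [s5_pos]

theorem kap_le : kap ≤ 1 / 6 := by
  unfold kap
  have h1 : Real.log lam ≤ 1 := by
    rw [Real.log_le_iff_le_exp lam_pos]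
    unfold lam
    linarith [s5_lt, Real.exp_one_gt_d9]
  have h2 : 6 ≤ 2 * Real.pi := by linarith [Real.pi_gt_three]
  rw [div_le_div_iff₀ (by positivity) (by norm_num)]
  linarith

theorem xp_gE (P : V4) : xp (gE P) = lam * xp P := by
  have h0 : (gE P 0).re = 2 * (P 0).re + (P 1).re := by simp [gE]
  have h1 : (gE P 1).re = (P 0).re + (P 1).re := by simp [gE]
  unfold xp lam ph'
  rw [h0, h1]
  field_simp
  linear_combination (-(P 1).re) * s5_sq

theorem xm_gE (P : V4) : lam * xm (gE P) = xm P := by
  have h0 : (gE P 0).re = 2 * (P 0).re + (P 1).re := by simp [gE]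
  have h1 : (gE P 1).re = (P 0).re + (P 1).re := by simp [gE]
  unfold xm lam ph
  rw [h0, h1]
  field_simp
  linear_combination ((P 0).re + (P 1).re) * s5_sq

theorem im_gE (P : V4) : (gE P 3).im = (P 3).im + 2 * Real.pi := by simp [gE]

theorem re_gE (P : V4) : (gE P 3).re = (P 3).re := by simp [gE]

theorem x0_gE (P : V4) : x0 (gE P) = x0 P := by simp [gE, x0]

theorem kxp_gE (P : V4) : Real.exp (-(kap * (gE P 3).im)) * xp (gE P) =
    Real.exp (-(kap * (P 3).im)) * xp P := by
  rw [xp_gE, im_gE]
  have h : Real.exp (-(kap * ((P 3).im + 2 * Real.pi))) * lam = Real.exp (-(kap * (P 3).im)) := by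
    rw [← exp_two_pi_kap, ← Real.exp_add]
    congr 1
    ring
  rw [← mul_assoc, h]

theorem kxm_gE (P : V4) : Real.exp (kap * (gE P 3).im) * xm (gE P) =
    Real.exp (kap * (P 3).im) * xm P := by
  rw [im_gE]
  have h : Real.exp (kap * ((P 3).im + 2 * Real.pi)) = Real.exp (kap * (P 3).im) * lam := by
    rw [← exp_two_pi_kap, ← Real.exp_add]
    congr 1
    ring
  rw [h, mul_assoc, xm_gE]

theorem tE_re (k : Fin 3 → ℤ) (P : V4) (i : Fin 4) : (tE k P i).re = (P i).re := by
  fin_cases i <;> simp [tE]

theorem tE_three (k : Fin 3 → ℤ) (P : V4) : tE k P 3 = P 3 := by simp [tE]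

theorem cont_coord (i : Fin 4) : Continuous fun P : V4 => (P i).re :=
  Complex.continuous_re.comp (continuous_apply i)

theorem cont_im3 : Continuous fun P : V4 => (P 3).im :=
  Complex.continuous_im.comp (continuous_apply 3)

theorem cont_xp : Continuous xp :=
  ((cont_coord 0).sub (continuous_const.mul (cont_coord 1))).div_const _

theorem cont_xm : Continuous xm :=
  ((continuous_const.mul (cont_coord 1)).sub (cont_coord 0)).div_const _

theorem X0_eq (P : V4) : (P 0).re = ph * xp P + ph' * xm P := by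
  unfold ph ph' xp xm ph ph'
  field_simp
  linear_combination (0 : ℝ) * s5_sq

theorem X1_eq (P : V4) : (P 1).re = xp P + xm P := by
  unfold xp xm ph ph'
  field_simp
  ring

/-- The convexity estimate. -/
theorem seg_bound {a b u v e f E η : ℝ} (ha : 0 ≤ a) (hb : 0 ≤ b) (hab : a + b = 1)
    (hE : E < 2) (hE0 : 0 ≤ E) (hη : 0 < η) (he : |e * u| ≤ E * η) (hf : |f * v| ≤ E * η)
    (h : e = f) : |e * (a * u + b * v)| < 2 * η := by
  subst h
  have h1 : e * (a * u + b * v) = a * (e * u) + b * (e * v) := by ring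
  rw [h1]
  calc |a * (e * u) + b * (e * v)| ≤ |a * (e * u)| + |b * (e * v)| := abs_add_le _ _
    _ = a * |e * u| + b * |e * v| := by
        rw [abs_mul a, abs_mul b, abs_of_nonneg ha, abs_of_nonneg hb]
    _ ≤ a * (E * η) + b * (E * η) := by gcongr
    _ = E * η := by rw [← add_mul, hab, one_mul]
    _ < 2 * η := by gcongr

theorem exp_small_shift {x y : ℝ} {s t : ℝ} (h : |s| ≤ 1) (hx : y = x * Real.exp (kap * s) * t)
    {η : ℝ} (ht : |x * t| ≤ η) : |y| ≤ Real.exp (1 / 6) * η := by
  have h1 : kap * s ≤ 1 / 6 := by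
    calc kap * s ≤ |kap * s| := le_abs_self _
      _ = kap * |s| := by rw [abs_mul, abs_of_nonneg kap_nonneg]
      _ ≤ 1 / 6 * 1 := mul_le_mul kap_le h (abs_nonneg _) (by norm_num)
      _ = 1 / 6 := mul_one _
  have h2 : y = Real.exp (kap * s) * (x * t) := by rw [hx]; ring
  rw [h2, abs_mul, abs_of_pos (Real.exp_pos _)]
  exact mul_le_mul (Real.exp_le_exp.2 h1) ht (abs_nonneg _) (Real.exp_pos _).le

theorem exp_sixth : Real.exp (1 / 6 : ℝ) < 2 := by
  have h1 : Real.exp (1 / 6 : ℝ) ^ 6 = Real.exp 1 := by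
    rw [← Real.exp_nat_mul]
    norm_num
  by_contra hcon
  push Not at hcon
  have h2 : (2 : ℝ) ^ 6 ≤ Real.exp (1 / 6 : ℝ) ^ 6 := pow_le_pow_left₀ (by norm_num) hcon 6
  rw [h1] at h2
  linarith [Real.exp_one_lt_d9]

theorem act2 : S_ACT2 := by
  refine ⟨?_, ?_, ?_, ?_, ?_, ?_⟩
  · intro η P
    unfold Unb
    simp only [Set.mem_ofPred_eq]
    rw [kxp_gE, kxm_gE, x0_gE, re_gE]
  · intro η k P
    unfold Unb
    simp only [Set.mem_ofPred_eq]
    unfold xp xm x0
    rw [tE_three, tE_re, tE_re, tE_re]
  · intro η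
    have h1 : IsOpen {P : V4 | |Real.exp (-(kap * (P 3).im)) * xp P| < η} :=
      isOpen_lt ((Real.continuous_exp.comp (continuous_const.mul cont_im3).neg).mul
        cont_xp).abs continuous_const
    have h2 : IsOpen {P : V4 | |Real.exp (kap * (P 3).im) * xm P| < η} :=
      isOpen_lt ((Real.continuous_exp.comp (continuous_const.mul cont_im3)).mul
        cont_xm).abs continuous_const
    have h3 : IsOpen {P : V4 | |x0 P| < η} := isOpen_lt (cont_coord 2).abs continuous_const
    have h4 : IsOpen {P : V4 | |(P 3).re| < η} := isOpen_lt (cont_coord 3).abs continuous_const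
    exact h1.inter (h2.inter (h3.inter h4))
  · intro η P hη hP
    have h1 : xp P = 0 := by unfold xp; rw [hP 0, hP 1]; simp
    have h2 : xm P = 0 := by unfold xm; rw [hP 0, hP 1]; simp
    have h3 : x0 P = 0 := hP 2
    refine ⟨?_, ?_, ?_, ?_⟩
    · rw [h1]; simpa using hη
    · rw [h2]; simpa using hη
    · rw [h3]; simpa using hη
    · rw [hP 3]; simpa using hη
  · refine ⟨3 * Real.exp (8 * kap) + 1, by positivity, ?_⟩
    intro η P hP hB
    obtain ⟨h1, h2, h3, h4⟩ := hP
    have hη : 0 < η := lt_of_le_of_lt (abs_nonneg _) h4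
    have hk := kap_nonneg
    have hE : 0 < Real.exp (8 * kap) := Real.exp_pos _
    have hi1 := (hB 3).1
    have hi2 := (hB 3).2
    have e1 : |xp P| ≤ Real.exp (8 * kap) * η := by
      have : |xp P| = Real.exp (kap * (P 3).im) * |Real.exp (-(kap * (P 3).im)) * xp P| := by
        rw [abs_mul, abs_of_pos (Real.exp_pos _), ← mul_assoc, ← Real.exp_add]
        simp
      rw [this]
      refine mul_le_mul (Real.exp_le_exp.2 ?_) h1.le (abs_nonneg _) hE.le
      nlinarith
    have e2 : |xm P| ≤ Real.exp (8 * kap) * η := by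
      have : |xm P| = Real.exp (-(kap * (P 3).im)) * |Real.exp (kap * (P 3).im) * xm P| := by
        rw [abs_mul, abs_of_pos (Real.exp_pos _), ← mul_assoc, ← Real.exp_add]
        simp
      rw [this]
      refine mul_le_mul (Real.exp_le_exp.2 ?_) h2.le (abs_nonneg _) hE.le
      nlinarith
    have hph : |ph| ≤ 2 := by
      unfold ph
      rw [abs_of_pos (by linarith [s5_pos])]
      linarith [s5_lt]
    have hph' : |ph'| ≤ 1 := by
      unfold ph'
      rw [abs_of_neg (by linarith [s5_gt])]
      linarith [s5_lt]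
    have hEη : 0 ≤ Real.exp (8 * kap) * η := by positivity
    intro i
    fin_cases i
    · show |(P 0).re| ≤ _
      rw [X0_eq P]
      calc |ph * xp P + ph' * xm P| ≤ |ph * xp P| + |ph' * xm P| := abs_add_le _ _
        _ = |ph| * |xp P| + |ph'| * |xm P| := by rw [abs_mul, abs_mul]
        _ ≤ 2 * (Real.exp (8 * kap) * η) + 1 * (Real.exp (8 * kap) * η) := by gcongr
        _ ≤ (3 * Real.exp (8 * kap) + 1) * η := by linarith
    · show |(P 1).re| ≤ _
      rw [X1_eq P]
      calc |xp P + xm P| ≤ |xp P| + |xm P| := abs_add_le _ _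
        _ ≤ Real.exp (8 * kap) * η + Real.exp (8 * kap) * η := by gcongr
        _ ≤ (3 * Real.exp (8 * kap) + 1) * η := by linarith
    · show |(P 2).re| ≤ _
      have : |(P 2).re| < η := h3
      nlinarith
    · show |(P 3).re| ≤ _
      nlinarith
  · intro η P P' hP hP' him Q hQ
    obtain ⟨a, b, ha, hb, hab, rfl⟩ := hQ
    obtain ⟨h1, h2, h3, h4⟩ := hP
    obtain ⟨h1', h2', h3', h4'⟩ := hP'
    have hη : 0 < η := lt_of_le_of_lt (abs_nonneg _) h4
    have hre : ∀ i, ((a • P + b • P') i).re = a * (P i).re + b * (P' i).re := by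
      intro i; simp
    have him3 : ((a • P + b • P') 3).im = a * (P 3).im + b * (P' 3).im := by simp
    have hxp : xp (a • P + b • P') = a * xp P + b * xp P' := by
      unfold xp
      rw [hre, hre]
      ring
    have hxm : xm (a • P + b • P') = a * xm P + b * xm P' := by
      unfold xm
      rw [hre, hre]
      ring
    have hb1 : b ≤ 1 := by linarith
    have ha1 : a ≤ 1 := by linarith
    set t := (P 3).im with ht
    set t' := (P' 3).im with ht'
    have s1 : |t - (a * t + b * t')| ≤ 1 := by
      have : t - (a * t + b * t') = b * (t - t') := by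
        have : a = 1 - b := by linarith
        rw [this]; ring
      rw [this, abs_mul, abs_of_nonneg hb]
      calc b * |t - t'| ≤ 1 * 1 := mul_le_mul hb1 him (abs_nonneg _) (by norm_num)
        _ = 1 := one_mul 1
    have s2 : |t' - (a * t + b * t')| ≤ 1 := by
      have : t' - (a * t + b * t') = -(a * (t - t')) := by
        have : b = 1 - a := by linarith
        rw [this]; ring
      rw [this, abs_neg, abs_mul, abs_of_nonneg ha]
      calc a * |t - t'| ≤ 1 * 1 := mul_le_mul ha1 him (abs_nonneg _) (by norm_num)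
        _ = 1 := one_mul 1
    refine ⟨?_, ?_, ?_, ?_⟩
    · show |Real.exp (-(kap * ((a • P + b • P') 3).im)) * xp (a • P + b • P')| < 2 * η
      rw [hxp, him3]
      refine seg_bound ha hb hab exp_sixth (Real.exp_pos _).le hη
        (exp_small_shift s1 ?_ h1.le) (exp_small_shift s2 ?_ h1'.le) rfl
      · rw [← Real.exp_add]
        congr 2
        ring
      · rw [← Real.exp_add]
        congr 2
        ring
    · show |Real.exp (kap * ((a • P + b • P') 3).im) * xm (a • P + b • P')| < 2 * η
      rw [hxm, him3]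
      refine seg_bound ha hb hab exp_sixth (Real.exp_pos _).le hη
        (exp_small_shift (s := (a * t + b * t') - t) (by rw [abs_sub_comm]; exact s1) ?_ h2.le)
        (exp_small_shift (s := (a * t + b * t') - t') (by rw [abs_sub_comm]; exact s2) ?_ h2'.le)
        rfl
      · rw [← Real.exp_add]
        congr 2
        ring
      · rw [← Real.exp_add]
        congr 2
        ring
    · show |((a • P + b • P') 2).re| < 2 * η
      rw [hre]
      have g1 : |(P 2).re| < η := h3
      have g2 : |(P' 2).re| < η := h3'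
      calc |a * (P 2).re + b * (P' 2).re| ≤ |a * (P 2).re| + |b * (P' 2).re| := abs_add_le _ _
        _ = a * |(P 2).re| + b * |(P' 2).re| := by
            rw [abs_mul, abs_mul, abs_of_nonneg ha, abs_of_nonneg hb]
        _ ≤ a * η + b * η := by gcongr
        _ < 2 * η := by rw [← add_mul, hab]; linarith
    · show |((a • P + b • P') 3).re| < 2 * η
      rw [hre]
      calc |a * (P 3).re + b * (P' 3).re| ≤ |a * (P 3).re| + |b * (P' 3).re| := abs_add_le _ _
        _ = a * |(P 3).re| + b * |(P' 3).re| := by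
            rw [abs_mul, abs_mul, abs_of_nonneg ha, abs_of_nonneg hb]
        _ ≤ a * η + b * η := by gcongr
        _ < 2 * η := by rw [← add_mul, hab]; linarith

end Pool.Agent.Helper11.AB
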