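import Pool.Agent.Helper15.AB.GoalsD

/-!
# Project AB (MP_1ef41b_an), module DF, packet HCJ: harmonic conjugates on a ball
-/

open MeasureTheory Set Filter Topology
open scoped ContDiff

noncomputable section

namespace Pool.Agent.Helper11.AB

open Pool.Agent.Helper24.AB Pool.Agent.Helper15.AB

theorem lapC_eq_laplacian {q : ℂ → ℝ} {w : ℂ} (h : ContDiffAt ℝ 2 q w) :
    lapC q w = Laplacian.laplacian q w := by
  have h1 : DifferentiableAt ℝ (fderiv ℝ q) w := by fun_prop
  rw [InnerProductSpace.laplacian_eq_iteratedFDeriv_complexPlane]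
  simp only [iteratedFDeriv_two_apply, Matrix.cons_val_zero, Matrix.cons_val_one]
  unfold lapC dS dT
  have e1 : ∀ v : ℂ, fderiv ℝ (fun w => fderiv ℝ q w v) w v = fderiv ℝ (fderiv ℝ q) w v v := by
    intro v
    rw [fderiv_clm_apply h1 (differentiableAt_const _)]
    simp
  rw [e1, e1]

theorem hcj : S_HCJ := by
  intro q w₀ r hq hlap
  have hat : ∀ w ∈ Metric.ball w₀ r, ContDiffAt ℝ 2 q w := fun w hw =>
    (hq.contDiffAt (Metric.isOpen_ball.mem_nhds hw)).of_le (by norm_cast)
  have hharm : InnerProductSpace.HarmonicOnNhd q (Metric.ball w₀ r) := by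
    intro w hw
    refine ⟨hat w hw, ?_⟩
    filter_upwards [Metric.isOpen_ball.mem_nhds hw] with v hv
    rw [← lapC_eq_laplacian (hat v hv), hlap v hv]
    rfl
  obtain ⟨F, hF, hre⟩ :=
    InnerProductSpace.HarmonicOnNhd.exists_analyticOnNhd_ball_re_eq hharm
  exact ⟨F, hF.differentiableOn, fun w hw => hre hw⟩

end Pool.Agent.Helper11.AB
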