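import Pool.Agent.Helper15.AB.GoalsP
import Pool.Agent.Helper11.AB.HCJ
import Pool.Agent.Helper11.AB.ACT2

/-!
# Project AB (MP_1ef41b_an), module POT, packet SER: the series `E_r`
-/

open MeasureTheory Set Filter Topology
open scoped ContDiff

noncomputable section

namespace Pool.Agent.Helper11.AB

open Pool.Agent.Helper24.AB Pool.Agent.Helper15.AB

theorem tpi_re : tpi.re = 0 := by simp [tpi]

theorem tpi_im : tpi.im = 2 * Real.pi := by simp [tpi]

theorem sub_k_re (w : ℂ) (k : ℤ) : (w - k * tpi).re = w.re := by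
  simp [tpi_re]

theorem sub_k_im (w : ℂ) (k : ℤ) : (w - k * tpi).im = w.im - k * (2 * Real.pi) := by
  simp [tpi_im]

theorem Er_add (r : ℝ) (w : ℂ) : Er r (w + tpi) = lam * Er r w := by
  unfold Er
  rw [← tsum_mul_left]
  rw [← (Equiv.addRight (1 : ℤ)).tsum_eq]
  refine tsum_congr fun k => ?_
  simp only [Equiv.coe_addRight]
  have h1 : w + tpi - ((k + 1 : ℤ) : ℂ) * tpi = w - k * tpi := by
    push_cast
    ring
  rw [h1, zpow_add_one₀ lam_pos.ne']
  ring

theorem Er_sub_k (r : ℝ) (k : ℤ) (w : ℂ) : Er r w = lam ^ k * Er r (w - k * tpi) := by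
  unfold Er
  rw [← tsum_mul_left]
  rw [← (Equiv.addRight k).tsum_eq]
  refine tsum_congr fun j => ?_
  simp only [Equiv.coe_addRight]
  have h1 : w - ((j + k : ℤ) : ℂ) * tpi = w - k * tpi - j * tpi := by
    push_cast
    ring
  rw [h1, zpow_add₀ lam_pos.ne']
  ring

/-- The open set `|Im w| < 4`. -/
def U4 : Set ℂ := {w | |w.im| < 4}

theorem isOpen_U4 : IsOpen U4 := isOpen_lt Complex.continuous_im.abs continuous_const

/-- The holomorphic terms. -/
def HT (Λ : ℂ → ℂ) (k : ℤ) (w : ℂ) : ℂ :=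
  if 0 < k then ((lam ^ k : ℝ) : ℂ) * Λ (-(w - k * tpi))
  else if k < 0 then ((lam ^ k : ℝ) : ℂ) * Λ (w - k * tpi) else 0

theorem lam_lt : lam < 3 := by
  unfold lam
  linarith [s5_lt]

theorem one_lt_lam : 1 < lam := by
  unfold lam
  linarith [s5_pos, s5_gt]

/-- The ratio of the majorant. -/
def qq : ℝ := lam * Real.exp (-(4 * Real.pi))

theorem qq_pos : 0 < qq := mul_pos lam_pos (Real.exp_pos _)

theorem qq_lt : qq < 1 := by
  unfold qq
  rw [Real.exp_neg, ← div_eq_mul_inv, div_lt_one (Real.exp_pos _)]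
  have h1 := Real.add_one_le_exp (4 * Real.pi)
  linarith [lam_lt, Real.pi_gt_three]

/-- The majorant. -/
def uu4 (k : ℤ) : ℝ := 8 * Real.exp 8 * qq ^ k.natAbs

theorem summable_uu4 : Summable uu4 := by
  refine Summable.mul_left _ ?_
  refine Summable.of_nat_of_neg ?_ ?_
  · simpa using summable_geometric_of_lt_one qq_pos.le qq_lt
  · simpa using summable_geometric_of_lt_one qq_pos.le qq_lt

theorem norm_HT_le {Λ : ℂ → ℂ} (hb : ∀ w : ℂ, 1 ≤ w.im → ‖Λ w‖ ≤ 8 * Real.exp (-2 * w.im))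
    (k : ℤ) (w : ℂ) (hw : w ∈ U4) : ‖HT Λ k w‖ ≤ uu4 k := by
  have hw' := abs_lt.1 (show |w.im| < 4 from hw)
  have hpi := Real.pi_gt_three
  have hE : ∀ n : ℕ, 8 * Real.exp 8 * qq ^ n =
      lam ^ n * (8 * Real.exp (8 - 4 * Real.pi * n)) := by
    intro n
    unfold qq
    rw [mul_pow, ← Real.exp_nat_mul, sub_eq_add_neg, Real.exp_add]
    rw [show (n : ℝ) * -(4 * Real.pi) = -(4 * Real.pi * n) by ring]
    ring
  unfold HT uu4
  split_ifs with h1 h2
  · obtain ⟨n, rfl⟩ : ∃ n : ℕ, k = n := ⟨k.toNat, by omega⟩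
    have hn : (1 : ℝ) ≤ n := by
      have : 1 ≤ n := by omega
      exact_mod_cast this
    rw [Int.natAbs_natCast, hE, norm_mul, Complex.norm_real, zpow_natCast,
      Real.norm_of_nonneg (pow_nonneg lam_pos.le _)]
    have him : (-(w - ((n : ℤ) : ℂ) * tpi)).im = n * (2 * Real.pi) - w.im := by
      rw [Complex.neg_im, sub_k_im]
      push_cast
      ring
    refine mul_le_mul_of_nonneg_left ((hb _ ?_).trans ?_) (pow_nonneg lam_pos.le _)
    · rw [him]
      nlinarith
    · rw [him]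
      have : -2 * (n * (2 * Real.pi) - w.im) ≤ 8 - 4 * Real.pi * n := by nlinarith
      linarith [Real.exp_le_exp.2 this]
  · obtain ⟨n, rfl⟩ : ∃ n : ℕ, k = -n := ⟨(-k).toNat, by omega⟩
    have hn : (1 : ℝ) ≤ n := by
      have : 1 ≤ n := by omega
      exact_mod_cast this
    rw [Int.natAbs_neg, Int.natAbs_natCast, hE, norm_mul, Complex.norm_real,
      Real.norm_of_nonneg (zpow_nonneg lam_pos.le _)]
    have hl : lam ^ (-(n : ℤ)) ≤ lam ^ n := by
      rw [zpow_neg, zpow_natCast]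
      have h3 : 1 ≤ lam ^ n := one_le_pow₀ one_lt_lam.le
      exact (inv_le_one_of_one_le₀ h3).trans h3
    have him : (w - ((-(n : ℤ) : ℤ) : ℂ) * tpi).im = n * (2 * Real.pi) + w.im := by
      rw [sub_k_im]
      push_cast
      ring
    refine mul_le_mul hl ((hb _ ?_).trans ?_) (norm_nonneg _) (pow_nonneg lam_pos.le _)
    · rw [him]
      nlinarith
    · rw [him]
      have : -2 * (n * (2 * Real.pi) + w.im) ≤ 8 - 4 * Real.pi * n := by nlinarith
      linarith [Real.exp_le_exp.2 this]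
  · rw [norm_zero]
    have := qq_pos
    positivity

theorem diff_HT {Λ : ℂ → ℂ} (hd : DifferentiableOn ℂ Λ {w | 0 < w.im}) (k : ℤ) :
    DifferentiableOn ℂ (HT Λ k) U4 := by
  have hpi := Real.pi_gt_three
  unfold HT
  split_ifs with h1 h2
  · refine (hd.comp (t := {w | 0 < w.im}) (f := fun w : ℂ => -(w - k * tpi)) ?_ ?_).const_mul _
    · exact ((differentiable_id.sub_const _).neg).differentiableOn
    · intro w hw
      have hw' := abs_lt.1 (show |w.im| < 4 from hw)
      have hk : (1 : ℝ) ≤ k := by exact_mod_cast h1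
      show 0 < (-(w - k * tpi)).im
      rw [Complex.neg_im, sub_k_im]
      nlinarith
  · refine (hd.comp (t := {w | 0 < w.im}) (f := fun w : ℂ => (w - k * tpi)) ?_ ?_).const_mul _
    · exact (differentiable_id.sub_const _).differentiableOn
    · intro w hw
      have hw' := abs_lt.1 (show |w.im| < 4 from hw)
      have hk : (k : ℝ) ≤ -1 := by
        have : k ≤ -1 := by omega
        exact_mod_cast this
      show 0 < (w - k * tpi).im
      rw [sub_k_im]
      nlinarith
  · exact differentiableOn_const _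

theorem term_eq {Λ : ℂ → ℂ} (h1 : S_LR) (hL : ∀ w : ℂ, 0 < w.im → Lt w = (Λ w).re)
    (heven : ∀ w : ℂ, Lt (-w) = Lt w) {r : ℝ} (hr : 0 < r) (hr1 : r ≤ 1) {k : ℤ} (hk : k ≠ 0)
    {w : ℂ} (hw : w ∈ U4) (hs : w ∈ strip (Real.pi / 2)) :
    lam ^ k * Lr r (w - k * tpi) = (HT Λ k w).re := by
  have hw' := abs_lt.1 (show |w.im| < 4 from hw)
  have hpi := Real.pi_gt_three
  have hs' : w - k * tpi ∈ strip (Real.pi / 2) := by
    show |(w - k * tpi).re| < Real.pi / 2
    rw [sub_k_re]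
    exact hs
  have hbig : r ≤ ‖w - k * tpi‖ := by
    refine hr1.trans (le_trans ?_ (Complex.abs_im_le_norm _))
    rw [sub_k_im]
    rcases lt_or_gt_of_ne hk with h | h
    · have hk' : (k : ℝ) ≤ -1 := by
        have : k ≤ -1 := by omega
        exact_mod_cast this
      refine le_trans ?_ (le_abs_self _)
      nlinarith
    · have hk' : (1 : ℝ) ≤ k := by exact_mod_cast h
      refine le_trans ?_ (neg_le_abs _)
      nlinarith
  rw [(h1 r hr).2.2.1 _ hs' hbig]
  unfold HT
  rcases lt_or_gt_of_ne hk with h | h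
  · rw [if_neg (by omega), if_pos h]
    have hk' : (k : ℝ) ≤ -1 := by
      have : k ≤ -1 := by omega
      exact_mod_cast this
    rw [Complex.re_ofReal_mul, ← hL]
    rw [sub_k_im]
    nlinarith
  · rw [if_pos h]
    have hk' : (1 : ℝ) ≤ k := by exact_mod_cast h
    rw [Complex.re_ofReal_mul, ← hL, heven]
    rw [Complex.neg_im, sub_k_im]
    nlinarith

theorem isOpen_strip (a : ℝ) : IsOpen (strip a) :=
  isOpen_lt Complex.continuous_re.abs continuous_const

/-- `E_r = L_r + Re H` with `H` holomorphic. -/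
theorem Er_eq (h1 : S_LR) (h2 : S_LTP) {r : ℝ} (hr : 0 < r) (hr1 : r ≤ 1) :
    ∃ H : ℂ → ℂ, DifferentiableOn ℂ H U4 ∧
      ∀ w ∈ U4, w ∈ strip (Real.pi / 2) → Er r w = Lr r w + (H w).re := by
  obtain ⟨Λ, hd, hL, hb, heven⟩ := h2
  refine ⟨fun w => ∑' k : ℤ, HT Λ k w, Complex.differentiableOn_tsum_of_summable_norm summable_uu4
    (diff_HT hd) isOpen_U4 (norm_HT_le hb), fun w hw hs => ?_⟩
  have hsumH : Summable fun k : ℤ => HT Λ k w :=
    Summable.of_norm_bounded summable_uu4 fun k => norm_HT_le hb k w hw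
  have hre : HasSum (fun k : ℤ => (HT Λ k w).re) (∑' k : ℤ, HT Λ k w).re :=
    Complex.hasSum_re hsumH.hasSum
  have hone : HasSum (fun k : ℤ => if k = 0 then Lr r w else 0) (Lr r w) := by
    have := hasSum_ite_eq (0 : ℤ) (Lr r w)
    exact this
  have htot := hone.add hre
  unfold Er
  rw [← htot.tsum_eq]
  refine tsum_congr fun k => ?_
  by_cases hk : k = 0
  · subst hk
    simp [HT]
  · rw [if_neg hk, zero_add]
    exact term_eq h1 hL heven hr hr1 hk hw hs

theorem ser (h1 : S_LR) (h2 : S_LTP) : S_SER := by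
  intro r hr hr1
  obtain ⟨H, hH, hE⟩ := Er_eq h1 h2 hr hr1
  have hLr := (h1 r hr).1
  have hHs : ContDiffOn ℝ ∞ (fun w => (H w).re) U4 := by
    have h3 : ContDiffOn ℂ ∞ H U4 := hH.contDiffOn isOpen_U4
    have h4 : ContDiffOn ℝ ∞ H U4 := h3.restrict_scalars ℝ
    exact Complex.reCLM.contDiff.comp_contDiffOn h4
  have hnear : ∀ w ∈ U4, w ∈ strip (Real.pi / 2) →
      Er r =ᶠ[𝓝 w] fun w => Lr r w + (H w).re := by
    intro w hw hs
    filter_upwards [isOpen_U4.mem_nhds hw, (isOpen_strip _).mem_nhds hs] with v hv hv'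
    exact hE v hv hv'
  have hsm : ∀ w ∈ U4, w ∈ strip (Real.pi / 2) → ContDiffAt ℝ ∞ (Er r) w := by
    intro w hw hs
    refine ContDiffAt.congr_of_eventuallyEq ?_ (hnear w hw hs)
    exact (hLr.contDiffAt ((isOpen_strip _).mem_nhds hs)).add
      (hHs.contDiffAt (isOpen_U4.mem_nhds hw))
  refine ⟨Er_add r, ?_, ?_⟩
  · intro w hw
    refine ContDiffAt.contDiffWithinAt ?_
    set k : ℤ := round (w.im / (2 * Real.pi)) with hk
    have hpi := Real.pi_gt_three
    have hwk : w - k * tpi ∈ U4 := by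
      show |(w - k * tpi).im| < 4
      rw [sub_k_im]
      have h3 := abs_sub_round (w.im / (2 * Real.pi))
      have h4 : w.im - k * (2 * Real.pi) = (w.im / (2 * Real.pi) - k) * (2 * Real.pi) := by
        field_simp
      rw [h4, abs_mul, abs_of_pos (by positivity : (0 : ℝ) < 2 * Real.pi)]
      have h5 : |w.im / (2 * Real.pi) - k| * (2 * Real.pi) ≤ 1 / 2 * (2 * Real.pi) :=
        mul_le_mul_of_nonneg_right h3 (by positivity)
      linarith [Real.pi_lt_d2]
    have hwk' : w - k * tpi ∈ strip (Real.pi / 2) := by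
      show |(w - k * tpi).re| < Real.pi / 2
      rw [sub_k_re]
      exact hw
    have h6 : Er r = fun w => lam ^ k * Er r (w - k * tpi) := by
      funext v
      exact Er_sub_k r k v
    rw [h6]
    refine contDiffAt_const.mul ?_
    exact ContDiffAt.comp w (g := Er r) (f := fun v : ℂ => v - k * tpi) (hsm _ hwk hwk')
      (contDiffAt_id.sub contDiffAt_const)
  · intro w hs hw
    have hle : (2 : WithTop ℕ∞) ≤ ∞ := by norm_cast
    have e1 : ContDiffAt ℝ 2 (Er r) w := (hsm w hw hs).of_le hle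
    have e2 : ContDiffAt ℝ 2 (Lr r) w :=
      (hLr.contDiffAt ((isOpen_strip _).mem_nhds hs)).of_le hle
    have e3 : ContDiffAt ℝ 2 (fun w => (H w).re) w :=
      (hHs.contDiffAt (isOpen_U4.mem_nhds hw)).of_le hle
    have e4 : InnerProductSpace.HarmonicAt (fun w => (H w).re) w :=
      (hH.analyticAt (isOpen_U4.mem_nhds hw)).harmonicAt_re
    rw [lapC_eq_laplacian e1, InnerProductSpace.laplacian_congr_nhds (hnear w hw hs)|>.eq_of_nhds]
    have e5 : Laplacian.laplacian (fun w => Lr r w + (H w).re) w =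
        Laplacian.laplacian (Lr r) w + Laplacian.laplacian (fun w => (H w).re) w :=
      e2.laplacian_add e3
    rw [e5, e4.2.eq_of_nhds, ← lapC_eq_laplacian e2, (h1 r hr).2.1 w hs]
    simp

end Pool.Agent.Helper11.AB
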