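import Pool.Agent.Helper15.AB.GoalsT

/-!
# Project AB (MP_1ef41b_an), module TR, packet TUBE: `Ω̃` is a tube
-/

open MeasureTheory Set Filter Topology
open scoped ContDiff

noncomputable section

namespace Pool.Agent.Helper11.AB

open Pool.Agent.Helper24.AB Pool.Agent.Helper15.AB

theorem Atl_nonneg {a : ℝ} (ha : 0 < a) (A : ℝ) (s : ℝ → ℝ) (x : ℝ) : 0 ≤ Atl a A s x := by
  unfold Atl
  split_ifs with h
  · have h1 : x ^ 2 < a ^ 2 := sq_lt_sq' (by linarith [abs_lt.1 h]) (by linarith [abs_lt.1 h])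
    exact div_nonneg (sq_nonneg _) (by linarith)
  · positivity

theorem tube : S_TUBE := by
  intro hG η a A δ₀ ρ₀ s p B hs hp hδ hsub
  obtain ⟨g1, g2, g3, g4, g5⟩ := hG a A δ₀ ρ₀ s p B hs hp hδ
  refine ⟨hs.a_pos, rfl, g1, g2, g3, g4, fun P => (g5 P).1, fun P k => (g5 P).2 k, ?_, hsub⟩
  intro P hP
  have ha := hs.a_pos
  have h1 : rfun a A s p P < 0 := hP.2
  unfold rfun at h1
  have h2 : 0 ≤ (ypf p P - A) ^ 2 / Atl a A s (P 3).re :=
    div_nonneg (sq_nonneg _) (Atl_nonneg ha A s _)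
  have h3 : 0 ≤ (ymf P ^ 2 + x0 P ^ 2) / (4 * A ^ 2) := by positivity
  have h4 : (P 3).re ^ 2 < a ^ 2 := by linarith
  exact abs_lt_of_sq_lt_sq h4 ha.le

end Pool.Agent.Helper11.AB
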