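import Pool.Agent.Helper24.AB.AN.Goals

/-!
# Project AB (MP_1ef41b_an), module AN, packet WEA: weights give (WE)
-/

open MeasureTheory Set Filter Topology
open scoped ContDiff

noncomputable section

namespace Pool.Agent.Helper11.AB

open Pool.Agent.Helper24.AB

theorem urap_memLp {a : ℝ} {ι : Type} {W : ι → ℝ → ℝ} {X : ι → ℂ → ℂ} (h : URap a W X) (j : ι) :
    MemLp (X j) 2 (muS a) := by
  refine ⟨h.1 j, ?_⟩
  obtain ⟨C, hC⟩ := h.2 0
  have h1 := hC j
  simp only [pow_zero, one_smul] at h1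
  exact lt_of_le_of_lt h1 ENNReal.coe_lt_top

theorem smul_le_smul_eLpNorm {a : ℝ} {u v : ℂ → ℝ} {X : ℂ → ℂ} {C : ℝ} (hu : ∀ w, 0 ≤ u w)
    (hv : ∀ w, 0 ≤ v w) (h : ∀ w, u w ≤ C * v w) :
    eLpNorm (fun w => u w • X w) 2 (muS a) ≤
      ENNReal.ofReal C * eLpNorm (fun w => v w • X w) 2 (muS a) := by
  refine eLpNorm_le_mul_eLpNorm_of_ae_le_mul (Eventually.of_forall fun w => ?_) 2
  rw [norm_smul, norm_smul, Real.norm_of_nonneg (hu w), Real.norm_of_nonneg (hv w), ← mul_assoc]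
  exact mul_le_mul_of_nonneg_right (h w) (norm_nonneg _)

theorem wea (h : S_WU) : S_WEA := by
  intro a ι Φ W ha hW hΦ hlap hwt Xa Xb z y hXa hXb hzy
  obtain ⟨Ca, hCa⟩ := h a ha
  have key : ∀ N : ℕ, ∃ C : NNReal, ∀ j,
      eLpNorm (fun w => ((W j w.im) ^ N : ℝ) • z j w) 2 (muS a) ≤ C ∧
      eLpNorm (fun w => ((W j w.im) ^ N : ℝ) • y j w) 2 (muS a) ≤ C := by
    intro N
    obtain ⟨C, N', hC⟩ := hwt N
    obtain ⟨C1, hC1⟩ := hXa.2 N'
    obtain ⟨C2, hC2⟩ := hXb.2 N'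
    refine ⟨C.toNNReal * (Ca * (C.toNNReal * C1 + C.toNNReal * C2)), fun j => ?_⟩
    obtain ⟨ψ, h1, h2, h3, h4, h5⟩ := hC j
    have hW0 : ∀ t, 0 ≤ W j t := fun t => zero_le_one.trans (hW.one_le j t)
    have hm := hCa (Φ j) ψ (z j) (y j) (Xa j) (Xb j) (hΦ j) (hlap j) h1 h2 h3 h4
      (urap_memLp hXa j) (urap_memLp hXb j) (hzy j).1 (hzy j).2
    have hA : eLpNorm (fun w => Real.exp (ψ w.im) • Xa j w) 2 (muS a) ≤
        ENNReal.ofReal C * (C1 : ENNReal) := by
      refine (smul_le_smul_eLpNorm (u := fun w => Real.exp (ψ w.im))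
        (v := fun w => W j w.im ^ N') (X := Xa j) (C := C) (fun w => (Real.exp_pos _).le)
        (fun w => pow_nonneg (hW0 _) _) (fun w => (h5 w.im).2)).trans ?_
      gcongr
      exact hC1 j
    have hB : eLpNorm (fun w => Real.exp (ψ w.im) • Xb j w) 2 (muS a) ≤
        ENNReal.ofReal C * (C2 : ENNReal) := by
      refine (smul_le_smul_eLpNorm (u := fun w => Real.exp (ψ w.im))
        (v := fun w => W j w.im ^ N') (X := Xb j) (C := C) (fun w => (Real.exp_pos _).le)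
        (fun w => pow_nonneg (hW0 _) _) (fun w => (h5 w.im).2)).trans ?_
      gcongr
      exact hC2 j
    have hsum : eLpNorm (fun w => Real.exp (ψ w.im) • y j w) 2 (muS a) +
        eLpNorm (fun w => Real.exp (ψ w.im) • z j w) 2 (muS a) ≤
        Ca * (ENNReal.ofReal C * (C1 : ENNReal) + ENNReal.ofReal C * (C2 : ENNReal)) := by
      refine hm.trans ?_
      gcongr
    have hle : ∀ X : ℂ → ℂ, eLpNorm (fun w => ((W j w.im) ^ N : ℝ) • X w) 2 (muS a) ≤
        ENNReal.ofReal C * eLpNorm (fun w => Real.exp (ψ w.im) • X w) 2 (muS a) := fun X =>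
      smul_le_smul_eLpNorm (u := fun w => W j w.im ^ N) (v := fun w => Real.exp (ψ w.im))
        (X := X) (C := C) (fun w => pow_nonneg (hW0 _) _) (fun w => (Real.exp_pos _).le)
        (fun w => (h5 w.im).1)
    have hcoe : ((C.toNNReal * (Ca * (C.toNNReal * C1 + C.toNNReal * C2)) : NNReal) : ENNReal) =
        ENNReal.ofReal C * (Ca * (ENNReal.ofReal C * (C1 : ENNReal) +
          ENNReal.ofReal C * (C2 : ENNReal))) := by
      push_cast
      rfl
    rw [hcoe]
    constructor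
    · refine (hle (z j)).trans ?_
      gcongr
      exact (self_le_add_left _ _).trans hsum
    · refine (hle (y j)).trans ?_
      gcongr
      exact (self_le_add_right _ _).trans hsum
  refine ⟨⟨fun j => (hzy j).1.memz.1, fun N => ?_⟩, ⟨fun j => (hzy j).1.memy.1, fun N => ?_⟩⟩
  · obtain ⟨C, hC⟩ := key N
    exact ⟨C, fun j => (hC j).1⟩
  · obtain ⟨C, hC⟩ := key N
    exact ⟨C, fun j => (hC j).2⟩

end Pool.Agent.Helper11.AB
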